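import Pool.Agent.W596.ST.FrameA
import Pool.Agent.W958.ST.Stms

/-!
# StFrame (project ST, problem MP_fe1391_co)
-/

set_option autoImplicit false

namespace Pool.Agent.W596.ST

open MvPolynomial Pool.Agent.W958.ST

/-! ### the covectors -/

/-- coordinates of the six covectors of a block -/
def a0 : Fin 6 → ℚ := ![0, 0, 0, 1, 1, 1]
/-- coordinates of the six covectors of a block, second -/
def a1 : Fin 6 → ℚ := ![0, 1, 1, 0, 0, 0]
/-- coordinates of the six covectors of a block, third -/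
def a2 : Fin 6 → ℚ := ![1, 0, -1, 0, -1, 1]

/-- the covectors of the blocks -/
def al (b : Fin 4) (s : Fin 6) : Fin 12 → ℚ :=
  mk3 (fun b' => if b' = b then a0 s else 0) (fun b' => if b' = b then a1 s else 0)
    (fun b' => if b' = b then a2 s else 0)

theorem ev_idx (b b' : Fin 4) (c c' : Fin 3) :
    ev b c (idx b' c') = if b' = b ∧ c' = c then 1 else 0 := by
  rw [ev, Pi.single_apply]
  by_cases h : b' = b ∧ c' = c
  · rw [if_pos h, if_pos (by rw [h.1, h.2])]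
  · rw [if_neg h, if_neg (fun h1 => h (idx_inj h1))]

theorem al_0 (b : Fin 4) : al b 0 = ev b 2 := by
  funext i
  revert i
  apply forall_idx
  intro b'
  simp [al, mk3_0, mk3_1, mk3_2, ev_idx, a0, a1, a2]

theorem al_1 (b : Fin 4) : al b 1 = ev b 1 := by
  funext i
  revert i
  apply forall_idx
  intro b'
  simp [al, mk3_0, mk3_1, mk3_2, ev_idx, a0, a1, a2]

theorem al_2 (b : Fin 4) : al b 2 = ev b 1 - ev b 2 := by
  funext i
  revert i
  apply forall_idx
  intro b'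
  by_cases h : b' = b <;> simp [al, mk3_0, mk3_1, mk3_2, ev_idx, a0, a1, a2, h]

theorem al_3 (b : Fin 4) : al b 3 = ev b 0 := by
  funext i
  revert i
  apply forall_idx
  intro b'
  simp [al, mk3_0, mk3_1, mk3_2, ev_idx, a0, a1, a2]

theorem al_4 (b : Fin 4) : al b 4 = ev b 0 - ev b 2 := by
  funext i
  revert i
  apply forall_idx
  intro b'
  by_cases h : b' = b <;> simp [al, mk3_0, mk3_1, mk3_2, ev_idx, a0, a1, a2, h]

theorem al_5 (b : Fin 4) : al b 5 = ev b 0 + ev b 2 := by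
  funext i
  revert i
  apply forall_idx
  intro b'
  by_cases h : b' = b <;> simp [al, mk3_0, mk3_1, mk3_2, ev_idx, a0, a1, a2, h]

theorem al_mem (b : Fin 4) (s : Fin 6) : al b s ∈ LB := by
  refine Set.mem_insert_of_mem _ ⟨b, ?_⟩
  rw [← al_0, ← al_1, ← al_3]
  fin_cases s
  · exact Or.inl rfl
  · exact Or.inr (Or.inl rfl)
  · refine Or.inr (Or.inr (Or.inl ?_))
    rw [al_0, al_1]
    exact al_2 b
  · exact Or.inr (Or.inr (Or.inr (Or.inl rfl)))
  · refine Or.inr (Or.inr (Or.inr (Or.inr (Or.inl ?_))))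
    rw [al_0, al_3]
    exact al_4 b
  · refine Or.inr (Or.inr (Or.inr (Or.inr (Or.inr ?_))))
    rw [al_0, al_3]
    exact al_5 b

theorem mem_LB {α : Fin 12 → ℚ} (h : α ∈ LB) : α = aB ∨ ∃ b s, α = al b s := by
  rcases h with h | ⟨b, h | h | h | h | h | h⟩
  · exact Or.inl h
  · exact Or.inr ⟨b, 0, by rw [al_0, h]⟩
  · exact Or.inr ⟨b, 1, by rw [al_1, h]⟩
  · exact Or.inr ⟨b, 2, by rw [al_2, h]⟩
  · exact Or.inr ⟨b, 3, by rw [al_3, h]⟩
  · exact Or.inr ⟨b, 4, by rw [al_4, h]⟩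
  · exact Or.inr ⟨b, 5, by rw [al_5, h]⟩

/-- the six linear forms of a block -/
noncomputable def lv (b : Fin 4) : Fin 6 → S :=
  ![X (idx b 2), X (idx b 1), X (idx b 1) - X (idx b 2), X (idx b 0), X (idx b 0) - X (idx b 2),
    X (idx b 0) + X (idx b 2)]

theorem lin_ev (b : Fin 4) (c : Fin 3) : lin (ev b c) = X (idx b c) := by
  unfold lin ev
  rw [Finset.sum_eq_single (idx b c)]
  · simp
  · intro i _ hi
    rw [Pi.single_eq_of_ne hi, map_zero, zero_mul]
  · simp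

theorem lin_add' (α β : Fin 12 → ℚ) : lin (α + β) = lin α + lin β := by
  simp [lin, add_mul, Finset.sum_add_distrib]

theorem lin_sub' (α β : Fin 12 → ℚ) : lin (α - β) = lin α - lin β := by
  simp [lin, sub_mul, Finset.sum_sub_distrib]

theorem lin_al (b : Fin 4) (s : Fin 6) : lin (al b s) = lv b s := by
  fin_cases s
  · exact (congrArg lin (al_0 b)).trans (lin_ev b 2)
  · exact (congrArg lin (al_1 b)).trans (lin_ev b 1)
  · exact (congrArg lin (al_2 b)).trans (by rw [lin_sub', lin_ev, lin_ev]; rfl)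
  · exact (congrArg lin (al_3 b)).trans (lin_ev b 0)
  · exact (congrArg lin (al_4 b)).trans (by rw [lin_sub', lin_ev, lin_ev]; rfl)
  · exact (congrArg lin (al_5 b)).trans (by rw [lin_add', lin_ev, lin_ev]; rfl)

theorem dt_eq (b : Fin 4) : dt b = ∏ s, lin (al b s) := by
  simp only [lin_al]
  rw [Fin.prod_univ_six, dt]
  simp only [lv, Matrix.cons_val_zero, Matrix.cons_val_one, Matrix.cons_val]
  ring

theorem Dt_eq : Dt = ∏ x : Fin 4 × Fin 6, lin (al x.1 x.2) := by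
  rw [Dt, Fintype.prod_prod_type]
  exact Finset.prod_congr rfl fun b _ => dt_eq b

theorem al_val0 (b : Fin 4) (s : Fin 6) (b' : Fin 4) :
    al b s (idx b' 0) = if b' = b then a0 s else 0 := mk3_0 _ _ _ _

theorem al_val1 (b : Fin 4) (s : Fin 6) (b' : Fin 4) :
    al b s (idx b' 1) = if b' = b then a1 s else 0 := mk3_1 _ _ _ _

theorem al_val2 (b : Fin 4) (s : Fin 6) (b' : Fin 4) :
    al b s (idx b' 2) = if b' = b then a2 s else 0 := mk3_2 _ _ _ _

theorem a_ne (s : Fin 6) : a0 s ≠ 0 ∨ a1 s ≠ 0 ∨ a2 s ≠ 0 := by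
  fin_cases s <;> simp [a0, a1, a2]

theorem al_ne (b : Fin 4) (s : Fin 6) : al b s ≠ 0 := by
  intro h
  have h0 := congrFun h (idx b 0)
  have h1 := congrFun h (idx b 1)
  have h2 := congrFun h (idx b 2)
  rw [al_val0, if_pos rfl] at h0
  rw [al_val1, if_pos rfl] at h1
  rw [al_val2, if_pos rfl] at h2
  rcases a_ne s with h | h | h
  · exact h h0
  · exact h h1
  · exact h h2

theorem a_inj (s s' : Fin 6) (c : ℚ) (h0 : a0 s = c * a0 s') (h1 : a1 s = c * a1 s')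
    (h2 : a2 s = c * a2 s') : s = s' := by
  fin_cases s <;> fin_cases s' <;> first
    | rfl
    | (exfalso
       simp [a0, a1, a2] at h0 h1 h2
       try linarith)

theorem al_inj {x y : Fin 4 × Fin 6} (h : lin (al x.1 x.2) ∣ lin (al y.1 y.2)) : x = y := by
  obtain ⟨c, hc⟩ := lin_dvd_lin (al_ne y.1 y.2) h
  obtain ⟨b, s⟩ := x
  obtain ⟨b', s'⟩ := y
  have hc' : ∀ i, al b s i = c * al b' s' i := by
    intro i
    have := congrFun hc i
    simp only [cv, Pi.smul_apply, smul_eq_mul, ← C_mul] at this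
    exact C_injective _ _ this
  have h0 := hc' (idx b 0)
  have h1 := hc' (idx b 1)
  have h2 := hc' (idx b 2)
  rw [al_val0, al_val0, if_pos rfl] at h0
  rw [al_val1, al_val1, if_pos rfl] at h1
  rw [al_val2, al_val2, if_pos rfl] at h2
  by_cases hb : b = b'
  · subst hb
    rw [if_pos rfl] at h0 h1 h2
    rw [a_inj s s' c h0 h1 h2]
  · exfalso
    rw [if_neg hb, mul_zero] at h0 h1 h2
    rcases a_ne s with h | h | h
    · exact h h0
    · exact h h1
    · exact h h2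

theorem Dt_pow_dvd {p : ℕ} {z : S} (h : ∀ b s, lin (al b s) ^ p ∣ z) : Dt ^ p ∣ z := by
  rw [Dt_eq, ← Finset.prod_pow]
  apply Fintype.prod_dvd_of_isRelPrime
  · intro x y hxy
    show IsRelPrime (lin (al x.1 x.2) ^ p) (lin (al y.1 y.2) ^ p)
    apply IsRelPrime.pow
    rw [(lin_prime (al_ne x.1 x.2)).irreducible.isRelPrime_iff_not_dvd]
    intro hd
    exact hxy (al_inj hd)
  · intro x
    exact h x.1 x.2

/-- the six divisibilities in a block -/
theorem block_mod (t x y E X0 Y0 : S) (s : Fin 6) : ∃ q : S,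
    (![t, x, x - t, y, y - t, y + t] : Fin 6 → S) s ∣ gy t x y E X0 Y0 - q * C (a0 s) ∧
    (![t, x, x - t, y, y - t, y + t] : Fin 6 → S) s ∣ gx t x y E X0 Y0 - q * C (a1 s) ∧
    (![t, x, x - t, y, y - t, y + t] : Fin 6 → S) s ∣ gt t x y E X0 Y0 - q * C (a2 s) := by
  fin_cases s
  · refine ⟨gt t x y E X0 Y0, ⟨x * (x - t) * gw t x y E X0 Y0, ?_⟩,
      ⟨(y * (y - t) * (y + t)) * (X0 + 2 * x * E), ?_⟩, ⟨0, ?_⟩⟩ <;>
      simp [a0, a1, a2, gx, gy, gt] <;> ring
  · refine ⟨gx t x y E X0 Y0, ⟨t * (x - t) * gw t x y E X0 Y0, ?_⟩, ⟨0, ?_⟩,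
      ⟨(x - t) * (y * (y - t) * (y + t)) * E - (y * (y - t) * (y + t)) * (X0 + 2 * x * E) -
        y * (x - t) * gw t x y E X0 Y0, ?_⟩⟩ <;>
      simp [a0, a1, a2, gx, gy, gt] <;> ring
  · refine ⟨gx t x y E X0 Y0, ⟨t * x * gw t x y E X0 Y0, ?_⟩, ⟨0, ?_⟩,
      ⟨x * (y * (y - t) * (y + t)) * E - (y * (y - t) * (y + t)) * (X0 + 2 * x * E) -
        y * x * gw t x y E X0 Y0, ?_⟩⟩ <;>
      simp [a0, a1, a2, gx, gy, gt] <;> ring
  · refine ⟨gy t x y E X0 Y0, ⟨0, ?_⟩, ⟨t * ((y - t) * (y + t)) * (X0 + 2 * x * E), ?_⟩,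
      ⟨x * (x - t) * ((y - t) * (y + t)) * E - x * ((y - t) * (y + t)) * (X0 + 2 * x * E) -
        x * (x - t) * gw t x y E X0 Y0, ?_⟩⟩ <;>
      simp [a0, a1, a2, gx, gy, gt] <;> ring
  · refine ⟨gy t x y E X0 Y0, ⟨0, ?_⟩, ⟨t * (y * (y + t)) * (X0 + 2 * x * E), ?_⟩,
      ⟨x * (x - t) * (y * (y + t)) * E - x * (y * (y + t)) * (X0 + 2 * x * E) -
        x * (x - t) * gw t x y E X0 Y0, ?_⟩⟩ <;>
      simp [a0, a1, a2, gx, gy, gt] <;> ring
  · refine ⟨gy t x y E X0 Y0, ⟨0, ?_⟩, ⟨t * (y * (y - t)) * (X0 + 2 * x * E), ?_⟩,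
      ⟨x * (x - t) * (y * (y - t)) * E - x * (y * (y - t)) * (X0 + 2 * x * E) -
        x * (x - t) * gw t x y E X0 Y0, ?_⟩⟩ <;>
      simp [a0, a1, a2, gx, gy, gt] <;> ring

theorem Nh_mod (b : Fin 4) (s : Fin 6) (v : Fin 12 → S) :
    ∃ c : S, ∀ i, lin (al b s) ∣ Nh v i - c * cv (al b s) i := by
  obtain ⟨q, h0, h1, h2⟩ := block_mod (X (idx b 2)) (X (idx b 1)) (X (idx b 0)) (v (idx b 2))
    (v (idx b 1)) (v (idx b 0)) s
  have hl : lin (al b s) = (![X (idx b 2), X (idx b 1), X (idx b 1) - X (idx b 2), X (idx b 0),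
    X (idx b 0) - X (idx b 2), X (idx b 0) + X (idx b 2)] : Fin 6 → S) s := lin_al b s
  rw [← hl] at h0 h1 h2
  refine ⟨Gt b * q, forall_idx fun b' => ?_⟩
  simp only [cv, al_val0, al_val1, al_val2, Nh_0, Nh_1, Nh_2]
  by_cases hb : b' = b
  · subst hb
    simp only [if_true, mul_assoc, ← mul_sub]
    exact ⟨Dvd.dvd.mul_left h0 _, Dvd.dvd.mul_left h1 _, Dvd.dvd.mul_left h2 _⟩
  · have hd : lin (al b s) ∣ Gt b' := by
      refine dvd_trans ?_ (dt_dvd_Gt (Ne.symm hb))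
      rw [dt_eq]
      exact Finset.dvd_prod_of_mem _ (Finset.mem_univ s)
    simp only [if_neg hb, map_zero, mul_zero, sub_zero]
    exact ⟨Dvd.dvd.mul_right hd _, Dvd.dvd.mul_right hd _, Dvd.dvd.mul_right hd _⟩

/-- the frame on the covectors of the block -/
theorem block_th (t x y : S) (s : Fin 6) :
    (![t, x, x - t, y, y - t, y + t] : Fin 6 → S) s ∣ fY t x y (C (a2 s)) (C (a1 s)) (C (a0 s)) ∧
    (![t, x, x - t, y, y - t, y + t] : Fin 6 → S) s ∣ fX t x y (C (a2 s)) (C (a1 s)) (C (a0 s)) ∧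
    (![t, x, x - t, y, y - t, y + t] : Fin 6 → S) s ∣ fE t x y (C (a2 s)) (C (a1 s)) (C (a0 s)) := by
  fin_cases s
  · refine ⟨⟨2 * y * (t - 2 * x + 2 * y - 4 * y), ?_⟩, ⟨-2 * x, ?_⟩, ⟨1, ?_⟩⟩ <;>
      simp [a0, a1, a2, fX, fY, fE] <;> ring
  · refine ⟨⟨4 * y * (x - t) + 2 * y * (t - 2 * x + 2 * y - 4 * y), ?_⟩, ⟨(x - t) - 2 * x, ?_⟩,
      ⟨1, ?_⟩⟩ <;>
      simp [a0, a1, a2, fX, fY, fE] <;> ring
  · refine ⟨⟨4 * y * x + 2 * y * (t - 2 * x + 2 * y - 4 * y), ?_⟩, ⟨-x, ?_⟩, ⟨1, ?_⟩⟩ <;>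
      simp [a0, a1, a2, fX, fY, fE] <;> ring
  · refine ⟨⟨y ^ 2 - t ^ 2 + 2 * y * (t - 2 * x + 2 * y - 4 * y), ?_⟩, ⟨-2 * x, ?_⟩, ⟨1, ?_⟩⟩ <;>
      simp [a0, a1, a2, fX, fY, fE] <;> ring
  · refine ⟨⟨y * (y + t) + 2 * y * (t - 2 * x + 2 * y - 4 * y), ?_⟩, ⟨-2 * x, ?_⟩, ⟨1, ?_⟩⟩ <;>
      simp [a0, a1, a2, fX, fY, fE] <;> ring
  · refine ⟨⟨y * (y - t) + 2 * y * (t - 2 * x + 2 * y - 4 * y), ?_⟩, ⟨-2 * x, ?_⟩, ⟨1, ?_⟩⟩ <;>
      simp [a0, a1, a2, fX, fY, fE] <;> ring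

theorem Th_al (b : Fin 4) (s : Fin 6) : ∃ w, Th (cv (al b s)) = lin (al b s) • w := by
  have h : ∀ i, lin (al b s) ∣ Th (cv (al b s)) i := by
    apply forall_idx
    intro b'
    simp only [Th_0, Th_1, Th_2, cv, al_val0, al_val1, al_val2]
    by_cases hb : b' = b
    · subst hb
      simp only [if_true]
      rw [lin_al]
      exact block_th _ _ _ s
    · simp [if_neg hb, fX, fY, fE]
  choose w hw using h
  exact ⟨w, funext hw⟩

theorem aB_eq : aB = mk3 (fun _ => 2) (fun _ => -2) (fun _ => 1) := by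
  funext i
  revert i
  apply forall_idx
  intro b'
  simp only [aB, Finset.sum_apply, Pi.add_apply, Pi.sub_apply, Pi.smul_apply, ev_idx, mk3_0, mk3_1,
    mk3_2]
  refine ⟨?_, ?_, ?_⟩ <;>
    (rw [Finset.sum_eq_single b' (fun b _ hb => by simp [Ne.symm hb])
      (fun h => absurd (Finset.mem_univ _) h)]; simp)

theorem Th_aB : Th (cv aB) = φB := by
  have hC2 : (C 2 : S) = 2 := rfl
  funext i
  revert i
  apply forall_idx
  intro b
  rw [φB_eq]
  simp only [Th_0, Th_1, Th_2, cv, aB_eq, mk3_0, mk3_1, mk3_2, map_neg, hC2, map_one, fX, fY, fE]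
  refine ⟨?_, ?_, ?_⟩ <;> ring

/-! ### homogeneity -/

theorem hmul {f g : S} {a b c : ℕ} (hf : f.IsHomogeneous a) (hg : g.IsHomogeneous b)
    (h : a + b = c) : (f * g).IsHomogeneous c := h ▸ hf.mul hg

theorem hX (i : Fin 12) : (X i : S).IsHomogeneous 1 := isHomogeneous_X _ _

theorem h2 : (2 : S).IsHomogeneous 0 := isHomogeneous_C (Fin 12) (2 : ℚ)

theorem h4 : (4 : S).IsHomogeneous 0 := isHomogeneous_C (Fin 12) (4 : ℚ)

theorem fE_hom {t x y vt vx vy : S} (ht : t.IsHomogeneous 1) (hx : x.IsHomogeneous 1)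
    (hy : y.IsHomogeneous 1) (hvt : vt.IsHomogeneous 0) (hvx : vx.IsHomogeneous 0)
    (hvy : vy.IsHomogeneous 0) : (fE t x y vt vx vy).IsHomogeneous 1 := by
  unfold fE
  exact ((hmul ht hvt rfl).add (hmul hx hvx rfl)).add (hmul hy hvy rfl)

theorem fX_hom {t x y vt vx vy : S} (ht : t.IsHomogeneous 1) (hx : x.IsHomogeneous 1)
    (hy : y.IsHomogeneous 1) (hvt : vt.IsHomogeneous 0) (hvx : vx.IsHomogeneous 0)
    (hvy : vy.IsHomogeneous 0) : (fX t x y vt vx vy).IsHomogeneous 2 := by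
  unfold fX
  exact (hmul (hmul hx (hx.sub ht) rfl) hvx rfl).sub
    (hmul (hmul h2 hx rfl) (fE_hom ht hx hy hvt hvx hvy) rfl)

theorem hlin {t x y : S} (ht : t.IsHomogeneous 1) (hx : x.IsHomogeneous 1)
    (hy : y.IsHomogeneous 1) : (t - 2 * x + 2 * y - 4 * y).IsHomogeneous 1 :=
  ((ht.sub (hmul h2 hx rfl)).add (hmul h2 hy rfl)).sub (hmul h4 hy rfl)

theorem fY_hom {t x y vt vx vy : S} (ht : t.IsHomogeneous 1) (hx : x.IsHomogeneous 1)
    (hy : y.IsHomogeneous 1) (hvt : vt.IsHomogeneous 0) (hvx : vx.IsHomogeneous 0)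
    (hvy : vy.IsHomogeneous 0) : (fY t x y vt vx vy).IsHomogeneous 3 := by
  unfold fY
  have hyt : (y ^ 2 - t ^ 2).IsHomogeneous 2 := by
    have e1 := (hmul hy hy rfl).sub (hmul ht ht rfl)
    rw [pow_two, pow_two]
    exact e1
  exact ((hmul (hmul hy hyt rfl) hvy rfl).add
    (hmul (hmul (hmul h4 hy rfl) (hmul hx (hx.sub ht) rfl) rfl) hvx rfl)).add
    (hmul (hmul (hmul h2 hy rfl) (hlin ht hx hy) rfl) (fE_hom ht hx hy hvt hvx hvy) rfl)

theorem dB_0 (b : Fin 4) : dB (idx b 0) = 3 := by rw [dB, idx_mod]; rfl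
theorem dB_1 (b : Fin 4) : dB (idx b 1) = 2 := by rw [dB, idx_mod]; rfl
theorem dB_2 (b : Fin 4) : dB (idx b 2) = 1 := by rw [dB, idx_mod]; rfl

theorem Th_hom {v : Fin 12 → S} (hv : ∀ i, (v i).IsHomogeneous 0) (i : Fin 12) :
    (Th v i).IsHomogeneous (dB i) := by
  revert i
  apply forall_idx
  intro b
  rw [Th_0, Th_1, Th_2, dB_0, dB_1, dB_2]
  exact ⟨fY_hom (hX _) (hX _) (hX _) (hv _) (hv _) (hv _),
    fX_hom (hX _) (hX _) (hX _) (hv _) (hv _) (hv _),
    fE_hom (hX _) (hX _) (hX _) (hv _) (hv _) (hv _)⟩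

theorem single_hom (w i : Fin 12) : ((Pi.single w 1 : Fin 12 → S) i).IsHomogeneous 0 := by
  rw [Pi.single_apply]
  split_ifs
  · exact isHomogeneous_one _ _
  · exact isHomogeneous_zero _ _ _

theorem dt_hom (b : Fin 4) : (dt b).IsHomogeneous 6 := by
  unfold dt
  exact hmul (hmul (hX _) (hmul (hX _) ((hX _).sub (hX _)) rfl) rfl)
    (hmul (hmul (hX _) ((hX _).sub (hX _)) rfl) ((hX _).add (hX _)) rfl) rfl

theorem Dt_hom : Dt.IsHomogeneous 24 := by
  unfold Dt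
  have h := IsHomogeneous.prod Finset.univ dt (fun _ => 6) (fun b _ => dt_hom b)
  simpa using h

theorem Gt_hom (b : Fin 4) : (Gt b).IsHomogeneous 18 := by
  unfold Gt
  have h := IsHomogeneous.prod (Finset.univ.erase b) dt (fun _ => 6) (fun b _ => dt_hom b)
  rw [Finset.sum_const, Finset.card_erase_of_mem (Finset.mem_univ _), Finset.card_univ,
    Fintype.card_fin] at h
  exact h

theorem hy3 {t y : S} (ht : t.IsHomogeneous 1) (hy : y.IsHomogeneous 1) :
    (y * (y - t) * (y + t)).IsHomogeneous 3 :=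
  hmul (hmul hy (hy.sub ht) rfl) (hy.add ht) rfl

/-- homogeneity of the adjugate block, argument `E` -/
theorem gE_hom {t x y : S} (ht : t.IsHomogeneous 1) (hx : x.IsHomogeneous 1)
    (hy : y.IsHomogeneous 1) : (gy t x y 1 0 0).IsHomogeneous 5 ∧
      (gx t x y 1 0 0).IsHomogeneous 5 ∧ (gt t x y 1 0 0).IsHomogeneous 5 := by
  have h3 := hy3 ht hy
  have hxx : (x * (x - t)).IsHomogeneous 2 := hmul hx (hx.sub ht) rfl
  have hz : (0 + 2 * x * 1 : S).IsHomogeneous 1 := by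
    have := hmul h2 hx rfl
    simpa using this
  have hw : (gw t x y 1 0 0).IsHomogeneous 2 := by
    unfold gw
    have h0 := isHomogeneous_zero (Fin 12) ℚ 2
    have h1 : (2 * y * (t - 2 * x + 2 * y - 4 * y) * 1 : S).IsHomogeneous 2 := by
      rw [mul_one]
      exact hmul (hmul h2 hy rfl) (hlin ht hx hy) rfl
    exact (h0.sub (hmul (hmul h4 hy rfl) hz rfl)).sub h1
  refine ⟨?_, ?_, ?_⟩
  · exact hmul (hmul ht hxx rfl) hw rfl
  · exact hmul (hmul ht h3 rfl) hz rfl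
  · unfold gt
    have h1 : (x * (x - t) * (y * (y - t) * (y + t)) * 1 : S).IsHomogeneous 5 := by
      rw [mul_one]
      exact hmul hxx h3 rfl
    exact (h1.sub (hmul (hmul hx h3 rfl) hz rfl)).sub (hmul (hmul hy hxx rfl) hw rfl)

/-- homogeneity of the adjugate block, argument `X` -/
theorem gX_hom {t x y : S} (ht : t.IsHomogeneous 1) (hx : x.IsHomogeneous 1)
    (hy : y.IsHomogeneous 1) : (gy t x y 0 1 0).IsHomogeneous 4 ∧
      (gx t x y 0 1 0).IsHomogeneous 4 ∧ (gt t x y 0 1 0).IsHomogeneous 4 := by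
  have h3 := hy3 ht hy
  have hxx : (x * (x - t)).IsHomogeneous 2 := hmul hx (hx.sub ht) rfl
  have hz : (1 + 2 * x * 0 : S).IsHomogeneous 0 := by
    rw [mul_zero, add_zero]
    exact isHomogeneous_one _ _
  have hw : (gw t x y 0 1 0).IsHomogeneous 1 := by
    unfold gw
    have h0 := isHomogeneous_zero (Fin 12) ℚ 1
    have h1 : (2 * y * (t - 2 * x + 2 * y - 4 * y) * 0 : S).IsHomogeneous 1 := by
      rw [mul_zero]
      exact h0
    exact (h0.sub (hmul (hmul h4 hy rfl) hz rfl)).sub h1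
  refine ⟨?_, ?_, ?_⟩
  · exact hmul (hmul ht hxx rfl) hw rfl
  · exact hmul (hmul ht h3 rfl) hz rfl
  · unfold gt
    have h1 : (x * (x - t) * (y * (y - t) * (y + t)) * 0 : S).IsHomogeneous 4 := by
      rw [mul_zero]
      exact isHomogeneous_zero _ _ _
    exact (h1.sub (hmul (hmul hx h3 rfl) hz rfl)).sub (hmul (hmul hy hxx rfl) hw rfl)

/-- homogeneity of the adjugate block, argument `Y` -/
theorem gY_hom {t x y : S} (ht : t.IsHomogeneous 1) (hx : x.IsHomogeneous 1)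
    (hy : y.IsHomogeneous 1) : (gy t x y 0 0 1).IsHomogeneous 3 ∧
      (gx t x y 0 0 1).IsHomogeneous 3 ∧ (gt t x y 0 0 1).IsHomogeneous 3 := by
  have hxx : (x * (x - t)).IsHomogeneous 2 := hmul hx (hx.sub ht) rfl
  have hw : gw t x y 0 0 1 = 1 := by
    unfold gw
    ring
  refine ⟨?_, ?_, ?_⟩
  · unfold gy
    rw [hw, mul_one]
    exact hmul ht hxx rfl
  · unfold gx
    rw [mul_zero, add_zero, mul_zero]
    exact isHomogeneous_zero _ _ _
  · unfold gt
    rw [hw]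
    have e : (x * (x - t) * (y * (y - t) * (y + t)) * 0 - x * (y * (y - t) * (y + t)) *
        (0 + 2 * x * 0) - y * (x * (x - t)) * 1 : S) = - (y * (x * (x - t))) := by ring
    rw [e]
    exact (hmul hy hxx rfl).neg

theorem g_zero (t x y : S) : gy t x y 0 0 0 = 0 ∧ gx t x y 0 0 0 = 0 ∧ gt t x y 0 0 0 = 0 := by
  unfold gy gx gt gw
  refine ⟨?_, ?_, ?_⟩ <;> ring

theorem Nh_hom (w i : Fin 12) : (Nh (Pi.single w 1) i).IsHomogeneous (24 - dB w) := by
  obtain ⟨b, c, rfl⟩ := idx_surj w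
  revert i
  apply forall_idx
  intro b'
  rw [Nh_0, Nh_1, Nh_2]
  have hs : ∀ c', (Pi.single (idx b c) 1 : Fin 12 → S) (idx b' c') =
      if b' = b ∧ c' = c then 1 else 0 := by
    intro c'
    rw [Pi.single_apply]
    by_cases h : b' = b ∧ c' = c
    · rw [if_pos h, if_pos (by rw [h.1, h.2])]
    · rw [if_neg h, if_neg (fun h1 => h (idx_inj h1))]
  rw [hs, hs, hs]
  by_cases hb : b' = b
  · subst hb
    fin_cases c
    · have h := gY_hom (hX (idx b' 2)) (hX (idx b' 1)) (hX (idx b' 0))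
      have e : 18 + 3 = 24 - dB (idx b' 0) := by rw [dB_0]
      simpa using ⟨hmul (Gt_hom b') h.1 e, hmul (Gt_hom b') h.2.1 e, hmul (Gt_hom b') h.2.2 e⟩
    · have h := gX_hom (hX (idx b' 2)) (hX (idx b' 1)) (hX (idx b' 0))
      have e : 18 + 4 = 24 - dB (idx b' 1) := by rw [dB_1]
      simpa using ⟨hmul (Gt_hom b') h.1 e, hmul (Gt_hom b') h.2.1 e, hmul (Gt_hom b') h.2.2 e⟩
    · have h := gE_hom (hX (idx b' 2)) (hX (idx b' 1)) (hX (idx b' 0))
      have e : 18 + 5 = 24 - dB (idx b' 2) := by rw [dB_2]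
      simpa using ⟨hmul (Gt_hom b') h.1 e, hmul (Gt_hom b') h.2.1 e, hmul (Gt_hom b') h.2.2 e⟩
  · have h := g_zero (X (idx b' 2)) (X (idx b' 1)) (X (idx b' 0))
    simp only [hb, false_and, if_false, h.1, h.2.1, h.2.2, mul_zero]
    exact ⟨isHomogeneous_zero _ _ _, isHomogeneous_zero _ _ _, isHomogeneous_zero _ _ _⟩

/-- values of a homogeneous form on homogeneous vectors -/
theorem hom_comp {p k : ℕ} (ω : Alt (Fin 12) ℚ (Fin 12) p)
    (h : ∀ w : Fin p → Fin 12, (ω (fun j => Pi.single (w j) 1)).IsHomogeneous k)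
    (v : Fin p → (Fin 12 → S)) (e : Fin p → ℕ) (hv : ∀ j i, (v j i).IsHomogeneous (e j)) :
    (ω v).IsHomogeneous (∑ j, e j + k) := by
  rw [expand_single]
  refine IsHomogeneous.sum _ _ _ fun w _ => ?_
  exact (IsHomogeneous.prod _ _ _ fun j _ => hv j (w j)).mul (h w)

/-- values of a weighted form -/
theorem homW_comp {p k : ℕ} (ω : Alt (Fin 12) ℚ (Fin 12) p)
    (h : ∀ w : Fin p → Fin 12, HomW (ω (fun j => Pi.single (w j) 1)) k (∑ j, dB (w j)))
    (v : Fin p → (Fin 12 → S)) (hv : ∀ j i, (v j i).IsHomogeneous (dB i)) :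
    (ω v).IsHomogeneous k := by
  rw [expand_single]
  refine IsHomogeneous.sum _ _ _ fun w _ => ?_
  rw [← homW_zero_right]
  apply HomW.mul_left (IsHomogeneous.prod _ _ _ fun j _ => hv j (w j))
  rw [zero_add]
  exact h w

/-! ### the isomorphism -/

theorem Dt_ne : Dt ≠ 0 := by
  rw [Dt_eq]
  exact Finset.prod_ne_zero_iff.mpr fun x _ => lin_ne (al_ne x.1 x.2)

theorem smul_all {p : ℕ} (ω : Alt (Fin 12) ℚ (Fin 12) p) (v : Fin p → (Fin 12 → S)) :
    ω (fun j => Dt • v j) = Dt ^ p * ω v := by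
  have h := ω.toMultilinearMap.map_smul_univ (fun _ => Dt) v
  rw [AlternatingMap.coe_multilinearMap] at h
  rw [h, smul_eq_mul, Finset.prod_const, Finset.card_univ, Fintype.card_fin]

theorem mem_HD {p k : ℕ} {c : Alt (Fin 12) ℚ (Fin 12) p} (hc : c ∈ KZ φB dB p k) :
    c.compLinearMap Th ∈ HD LB aB p k := by
  have hφ : ∀ (v : Fin p → (Fin 12 → S)) (j : Fin p), v j = cv aB →
      c.compLinearMap Th v = 0 := by
    intro v j hj
    rw [AlternatingMap.compLinearMap_apply]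
    exact hc.2 _ j (by rw [hj, Th_aB])
  refine ⟨⟨?_, ?_⟩, hφ⟩
  · intro α hα v j hj
    rcases mem_LB hα with rfl | ⟨b, s, rfl⟩
    · rw [hφ v j hj]
      exact dvd_zero _
    · obtain ⟨w, hw⟩ := Th_al b s
      rw [AlternatingMap.compLinearMap_apply]
      have e : (fun i => Th (v i)) = Function.update (fun i => Th (v i)) j (lin (al b s) • w) := by
        rw [← hw, ← hj]
        exact (Function.update_eq_self j (fun i => Th (v i))).symm
      rw [e, AlternatingMap.map_update_smul, smul_eq_mul]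
      exact dvd_mul_right _ _
  · intro w
    rw [AlternatingMap.compLinearMap_apply]
    exact homW_comp c hc.1 _ fun j i => Th_hom (single_hom (w j)) i

theorem mem_KZ {p k : ℕ} {ω : Alt (Fin 12) ℚ (Fin 12) p} (hω : ω ∈ HD LB aB p k) :
    ∃ c ∈ KZ φB dB p k, c.compLinearMap Th = ω := by
  have hd : ∀ v, Dt ^ p ∣ ω.compLinearMap Nh v := by
    intro v
    apply Dt_pow_dvd
    intro b s
    rw [AlternatingMap.compLinearMap_apply]
    exact pow_dvd ω (lin (al b s)) (cv (al b s)) (hω.1.1 _ (al_mem b s)) _ fun j => Nh_mod b s (v j)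
  obtain ⟨c, hc⟩ := exists_div (ω.compLinearMap Nh) (Dt ^ p) (pow_ne_zero p Dt_ne) hd
  have hc' : ∀ v : Fin p → (Fin 12 → S), ω (fun j => Nh (v j)) = Dt ^ p * c v := by
    intro v
    have := congrArg (fun f => f v) hc
    simpa [AlternatingMap.compLinearMap_apply] using this
  refine ⟨c, ⟨?_, ?_⟩, ?_⟩
  · intro w
    have h1 := hom_comp ω hω.1.2 (fun j => Nh (Pi.single (w j) 1)) (fun j => 24 - dB (w j))
      (fun j i => Nh_hom (w j) i)
    rw [hc'] at h1
    have hD : (Dt ^ p).IsHomogeneous (24 * p) := Dt_hom.pow p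
    have hs : ∑ j, (24 - dB (w j)) + ∑ j, dB (w j) = 24 * p := by
      rw [← Finset.sum_add_distrib]
      have : ∀ j ∈ Finset.univ, (24 - dB (w j)) + dB (w j) = 24 := by
        intro j _
        unfold dB
        omega
      rw [Finset.sum_congr rfl this, Finset.sum_const, Finset.card_univ, Fintype.card_fin,
        smul_eq_mul, mul_comm]
    constructor
    · intro h
      apply hom_of_mul hD (pow_ne_zero p Dt_ne)
      have e : 24 * p + (k - ∑ j, dB (w j)) = ∑ j, (24 - dB (w j)) + k := by omega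
      rw [e]
      exact h1
    · intro h
      have h2 := hcomp_mul (g := c (fun j => Pi.single (w j) 1)) hD (∑ j, (24 - dB (w j)) + k)
      rw [if_neg (by omega), mul_zero, homogeneousComponent_eq_self h1] at h2
      exact (mul_eq_zero.mp h2).resolve_left (pow_ne_zero p Dt_ne)
  · intro v j hj
    have h1 : ω (fun j => Nh (v j)) = 0 := by
      have e : (fun i => Nh (v i)) = Function.update (fun i => Nh (v i)) j (Dt • cv aB) := by
        rw [← Nh_Th, Th_aB, ← hj]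
        exact (Function.update_eq_self j (fun i => Nh (v i))).symm
      rw [e, AlternatingMap.map_update_smul]
      rw [hω.2 _ j (by simp), smul_zero]
    rw [hc'] at h1
    exact (mul_eq_zero.mp h1).resolve_left (pow_ne_zero p Dt_ne)
  · refine AlternatingMap.ext fun v => ?_
    apply mul_left_cancel₀ (pow_ne_zero p Dt_ne)
    rw [AlternatingMap.compLinearMap_apply, ← hc']
    simp only [Nh_Th]
    exact smul_all ω v

theorem inj {p : ℕ} {c : Alt (Fin 12) ℚ (Fin 12) p} (h : c.compLinearMap Th = 0) : c = 0 := by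
  refine AlternatingMap.ext fun v => ?_
  apply mul_left_cancel₀ (pow_ne_zero p Dt_ne)
  have h1 := congrArg (fun f => f (fun j => Nh (v j))) h
  simp only [AlternatingMap.compLinearMap_apply, Th_Nh] at h1
  rw [smul_all] at h1
  rw [h1]
  simp

/-- the comparison map -/
noncomputable def cmp (p k : ℕ) : KZ φB dB p k →ₗ[ℚ] HD LB aB p k where
  toFun c := ⟨c.1.compLinearMap Th, mem_HD c.2⟩
  map_add' _ _ := rfl
  map_smul' _ _ := rfl

theorem cmp_bij (p k : ℕ) : Function.Bijective (cmp p k) := by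
  constructor
  · rw [injective_iff_map_eq_zero]
    intro c hc
    apply Subtype.ext
    exact inj (congrArg Subtype.val hc)
  · intro ω
    obtain ⟨c, hc, h⟩ := mem_KZ ω.2
    exact ⟨⟨c, hc⟩, Subtype.ext h⟩

theorem main : StFrame := fun p k =>
  (LinearEquiv.ofBijective (cmp p k) (cmp_bij p k)).finrank_eq.symm

end Pool.Agent.W596.ST
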