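import Pool.Agent.W958.ST.Euler

/-!
# StFrame, part A: a divisibility lemma and the block frame (project ST)
-/

set_option autoImplicit false

namespace Pool.Agent.W596.ST

open MvPolynomial Pool.Agent.W958.ST

/-- if every argument is a combination of `α` and of a multiple of `β`, and `β` divides all values
of `ω` with an argument `α`, then `β ^ p` divides the value of `ω` -/
theorem pow_dvd {R ι : Type*} [CommRing R] {p : ℕ} (ω : (ι → R) [⋀^Fin p]→ₗ[R] R) (β : R)
    (α : ι → R) (h : ∀ (v : Fin p → (ι → R)) (j : Fin p), v j = α → β ∣ ω v)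
    (v : Fin p → (ι → R)) (hv : ∀ j, ∃ c : R, ∀ i, β ∣ v j i - c * α i) : β ^ p ∣ ω v := by
  classical
  choose c u hu using hv
  have e : v = (fun j => c j • α) + fun j => β • u j := by
    funext j i
    simp only [Pi.add_apply, Pi.smul_apply, smul_eq_mul]
    rw [← hu]
    ring
  rw [e, AlternatingMap.map_add_univ]
  refine Finset.dvd_sum fun s _ => ?_
  have e2 : (s.piecewise (fun j => c j • α) fun j => β • u j) =
      fun j => (if j ∈ s then c j else β) • (if j ∈ s then α else u j) := by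
    funext j
    by_cases hj : j ∈ s
    · simp [Finset.piecewise, hj]
    · simp [Finset.piecewise, hj]
  have h2 := ω.toMultilinearMap.map_smul_univ (fun j => if j ∈ s then c j else β)
    (fun j => if j ∈ s then α else u j)
  rw [AlternatingMap.coe_multilinearMap] at h2
  rw [e2, h2, smul_eq_mul]
  rcases Nat.lt_or_ge 1 s.card with hs | hs
  · obtain ⟨a, ha, b, hb, hab⟩ := Finset.one_lt_card.mp hs
    rw [ω.map_eq_zero_of_eq _ (by simp [ha, hb]) hab, mul_zero]
    exact dvd_zero _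
  · rcases Nat.eq_zero_or_pos s.card with h0 | h0
    · rw [Finset.card_eq_zero] at h0
      subst h0
      apply Dvd.dvd.mul_right
      simp
    · obtain ⟨a, ha⟩ := Finset.card_eq_one.mp (le_antisymm hs h0)
      subst ha
      have hp : β ^ p = (∏ j ∈ Finset.univ.erase a, β) * β := by
        rw [Finset.prod_const, Finset.card_erase_of_mem (Finset.mem_univ _), Finset.card_univ,
          Fintype.card_fin, ← pow_succ, Nat.sub_add_cancel a.pos]
      rw [hp]
      apply mul_dvd_mul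
      · rw [← Finset.mul_prod_erase _ _ (Finset.mem_univ a)]
        apply Dvd.dvd.mul_left
        apply dvd_of_eq
        refine Finset.prod_congr rfl fun j hj => ?_
        rw [if_neg]
        rw [Finset.mem_singleton]
        exact Finset.ne_of_mem_erase hj
      · apply h _ a
        simp

/-- the polynomial ring -/
abbrev S := MvPolynomial (Fin 12) ℚ

/-- block number -/
def bl (i : Fin 12) : Fin 4 := ⟨i.1 / 3, by omega⟩

theorem bl_idx (b : Fin 4) (c : Fin 3) : bl (idx b c) = b := by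
  apply Fin.ext
  simp only [bl, idx]
  omega

theorem idx_mod (b : Fin 4) (c : Fin 3) : (idx b c).1 % 3 = c.1 := by
  simp only [idx]
  omega

theorem idx_surj (i : Fin 12) : ∃ b c, i = idx b c :=
  ⟨bl i, ⟨i.1 % 3, Nat.mod_lt _ (by norm_num)⟩, by
    apply Fin.ext
    simp only [bl, idx]
    omega⟩

theorem forall_idx {P : Fin 12 → Prop} (h : ∀ b, P (idx b 0) ∧ P (idx b 1) ∧ P (idx b 2)) (i : Fin 12) :
    P i := by
  obtain ⟨b, c, rfl⟩ := idx_surj i
  fin_cases c
  · exact (h b).1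
  · exact (h b).2.1
  · exact (h b).2.2

theorem idx_inj {b b' : Fin 4} {c c' : Fin 3} (h : idx b c = idx b' c') : b = b' ∧ c = c' := by
  have h1 := congrArg bl h
  rw [bl_idx, bl_idx] at h1
  have h2 : (idx b c).1 % 3 = (idx b' c').1 % 3 := by rw [h]
  rw [idx_mod, idx_mod] at h2
  exact ⟨h1, Fin.ext h2⟩

/-- a function on the coordinates given by three functions of the block -/
def mk3 {T : Type} (f g h : Fin 4 → T) (i : Fin 12) : T :=
  if i.1 % 3 = 0 then f (bl i) else if i.1 % 3 = 1 then g (bl i) else h (bl i)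

theorem mk3_0 {T : Type} (f g h : Fin 4 → T) (b : Fin 4) : mk3 f g h (idx b 0) = f b := by
  rw [mk3, idx_mod, if_pos (show ((0 : Fin 3) : ℕ) = 0 from rfl), bl_idx]

theorem mk3_1 {T : Type} (f g h : Fin 4 → T) (b : Fin 4) : mk3 f g h (idx b 1) = g b := by
  rw [mk3, idx_mod, if_neg (by decide), if_pos (show ((1 : Fin 3) : ℕ) = 1 from rfl), bl_idx]

theorem mk3_2 {T : Type} (f g h : Fin 4 → T) (b : Fin 4) : mk3 f g h (idx b 2) = h b := by
  rw [mk3, idx_mod, if_neg (by decide), if_neg (by decide), bl_idx]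

theorem φB_eq : φB = mk3 (fun b => -6 * X (idx b 0) ^ 3)
    (fun b => 2 * X (idx b 1) ^ 2 - 4 * X (idx b 1) * X (idx b 0))
    (fun b => X (idx b 2) - 2 * X (idx b 1) + 2 * X (idx b 0)) := rfl

/-- the three values of the block frame -/
noncomputable def fE (t x y vt vx vy : S) : S := t * vt + x * vx + y * vy
noncomputable def fX (t x y vt vx vy : S) : S := x * (x - t) * vx - 2 * x * fE t x y vt vx vy
noncomputable def fY (t x y vt vx vy : S) : S :=
  y * (y ^ 2 - t ^ 2) * vy + 4 * y * (x * (x - t)) * vx +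
    2 * y * (t - 2 * x + 2 * y - 4 * y) * fE t x y vt vx vy

/-- the block frame -/
noncomputable def Th : (Fin 12 → S) →ₗ[S] (Fin 12 → S) where
  toFun v := mk3
    (fun b => fY (X (idx b 2)) (X (idx b 1)) (X (idx b 0)) (v (idx b 2)) (v (idx b 1)) (v (idx b 0)))
    (fun b => fX (X (idx b 2)) (X (idx b 1)) (X (idx b 0)) (v (idx b 2)) (v (idx b 1)) (v (idx b 0)))
    (fun b => fE (X (idx b 2)) (X (idx b 1)) (X (idx b 0)) (v (idx b 2)) (v (idx b 1)) (v (idx b 0)))
  map_add' v w := by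
    funext i
    revert i
    apply forall_idx
    intro b
    simp only [Pi.add_apply, mk3_0, mk3_1, mk3_2, fX, fY, fE]
    refine ⟨?_, ?_, ?_⟩ <;> ring
  map_smul' r v := by
    funext i
    revert i
    apply forall_idx
    intro b
    simp only [Pi.smul_apply, smul_eq_mul, mk3_0, mk3_1, mk3_2, fX, fY, fE, RingHom.id_apply]
    refine ⟨?_, ?_, ?_⟩ <;> ring

theorem Th_apply (v : Fin 12 → S) : Th v = mk3
    (fun b => fY (X (idx b 2)) (X (idx b 1)) (X (idx b 0)) (v (idx b 2)) (v (idx b 1)) (v (idx b 0)))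
    (fun b => fX (X (idx b 2)) (X (idx b 1)) (X (idx b 0)) (v (idx b 2)) (v (idx b 1)) (v (idx b 0)))
    (fun b => fE (X (idx b 2)) (X (idx b 1)) (X (idx b 0)) (v (idx b 2)) (v (idx b 1)) (v (idx b 0))) :=
  rfl

theorem Th_0 (v : Fin 12 → S) (b : Fin 4) : Th v (idx b 0) =
    fY (X (idx b 2)) (X (idx b 1)) (X (idx b 0)) (v (idx b 2)) (v (idx b 1)) (v (idx b 0)) := by
  rw [Th_apply, mk3_0]

theorem Th_1 (v : Fin 12 → S) (b : Fin 4) : Th v (idx b 1) =
    fX (X (idx b 2)) (X (idx b 1)) (X (idx b 0)) (v (idx b 2)) (v (idx b 1)) (v (idx b 0)) := by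
  rw [Th_apply, mk3_1]

theorem Th_2 (v : Fin 12 → S) (b : Fin 4) : Th v (idx b 2) =
    fE (X (idx b 2)) (X (idx b 1)) (X (idx b 0)) (v (idx b 2)) (v (idx b 1)) (v (idx b 0)) := by
  rw [Th_apply, mk3_2]

/-- the determinant of a block -/
noncomputable def dt (b : Fin 4) : S :=
  X (idx b 2) * (X (idx b 1) * (X (idx b 1) - X (idx b 2))) *
    (X (idx b 0) * (X (idx b 0) - X (idx b 2)) * (X (idx b 0) + X (idx b 2)))

/-- the determinant -/
noncomputable def Dt : S := ∏ b, dt b

/-- the determinant of the other blocks -/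
noncomputable def Gt (b : Fin 4) : S := ∏ b' ∈ Finset.univ.erase b, dt b'

theorem Gt_mul (b : Fin 4) : Gt b * dt b = Dt := by
  rw [Gt, Dt, Finset.prod_erase_mul _ _ (Finset.mem_univ b)]

theorem dt_dvd_Gt {b b' : Fin 4} (h : b ≠ b') : dt b ∣ Gt b' :=
  Finset.dvd_prod_of_mem _ (Finset.mem_erase.mpr ⟨h, Finset.mem_univ _⟩)

/-- the values of the adjugate frame of a block on the vector `E, X, Y` -/
noncomputable def gx (t x y E X0 _Y0 : S) : S := t * (y * (y - t) * (y + t)) * (X0 + 2 * x * E)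
noncomputable def gw (t x y E X0 Y0 : S) : S :=
  Y0 - 4 * y * (X0 + 2 * x * E) - 2 * y * (t - 2 * x + 2 * y - 4 * y) * E
noncomputable def gy (t x y E X0 Y0 : S) : S := t * (x * (x - t)) * gw t x y E X0 Y0
noncomputable def gt (t x y E X0 Y0 : S) : S :=
  x * (x - t) * (y * (y - t) * (y + t)) * E - x * (y * (y - t) * (y + t)) * (X0 + 2 * x * E) -
    y * (x * (x - t)) * gw t x y E X0 Y0

/-- the adjugate of the frame -/
noncomputable def Nh : (Fin 12 → S) →ₗ[S] (Fin 12 → S) where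
  toFun v := mk3
    (fun b => Gt b * gy (X (idx b 2)) (X (idx b 1)) (X (idx b 0)) (v (idx b 2)) (v (idx b 1)) (v (idx b 0)))
    (fun b => Gt b * gx (X (idx b 2)) (X (idx b 1)) (X (idx b 0)) (v (idx b 2)) (v (idx b 1)) (v (idx b 0)))
    (fun b => Gt b * gt (X (idx b 2)) (X (idx b 1)) (X (idx b 0)) (v (idx b 2)) (v (idx b 1)) (v (idx b 0)))
  map_add' v w := by
    funext i
    revert i
    apply forall_idx
    intro b
    simp only [Pi.add_apply, mk3_0, mk3_1, mk3_2, gx, gy, gt, gw]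
    refine ⟨?_, ?_, ?_⟩ <;> ring
  map_smul' r v := by
    funext i
    revert i
    apply forall_idx
    intro b
    simp only [Pi.smul_apply, smul_eq_mul, mk3_0, mk3_1, mk3_2, gx, gy, gt, gw, RingHom.id_apply]
    refine ⟨?_, ?_, ?_⟩ <;> ring

theorem Nh_apply (v : Fin 12 → S) : Nh v = mk3
    (fun b => Gt b * gy (X (idx b 2)) (X (idx b 1)) (X (idx b 0)) (v (idx b 2)) (v (idx b 1)) (v (idx b 0)))
    (fun b => Gt b * gx (X (idx b 2)) (X (idx b 1)) (X (idx b 0)) (v (idx b 2)) (v (idx b 1)) (v (idx b 0)))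
    (fun b => Gt b * gt (X (idx b 2)) (X (idx b 1)) (X (idx b 0)) (v (idx b 2)) (v (idx b 1)) (v (idx b 0))) :=
  rfl

theorem Nh_0 (v : Fin 12 → S) (b : Fin 4) : Nh v (idx b 0) = Gt b *
    gy (X (idx b 2)) (X (idx b 1)) (X (idx b 0)) (v (idx b 2)) (v (idx b 1)) (v (idx b 0)) := by
  rw [Nh_apply, mk3_0]

theorem Nh_1 (v : Fin 12 → S) (b : Fin 4) : Nh v (idx b 1) = Gt b *
    gx (X (idx b 2)) (X (idx b 1)) (X (idx b 0)) (v (idx b 2)) (v (idx b 1)) (v (idx b 0)) := by
  rw [Nh_apply, mk3_1]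

theorem Nh_2 (v : Fin 12 → S) (b : Fin 4) : Nh v (idx b 2) = Gt b *
    gt (X (idx b 2)) (X (idx b 1)) (X (idx b 0)) (v (idx b 2)) (v (idx b 1)) (v (idx b 0)) := by
  rw [Nh_apply, mk3_2]

theorem Th_Nh (v : Fin 12 → S) : Th (Nh v) = Dt • v := by
  funext i
  revert i
  apply forall_idx
  intro b
  simp only [Pi.smul_apply, smul_eq_mul, Th_0, Th_1, Th_2, Nh_0, Nh_1, Nh_2, ← Gt_mul b, dt, gx, gy,
    gt, gw, fX, fY, fE]
  refine ⟨?_, ?_, ?_⟩ <;> ring

theorem Nh_Th (v : Fin 12 → S) : Nh (Th v) = Dt • v := by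
  funext i
  revert i
  apply forall_idx
  intro b
  simp only [Pi.smul_apply, smul_eq_mul, Th_0, Th_1, Th_2, Nh_0, Nh_1, Nh_2, ← Gt_mul b, dt, gx, gy,
    gt, gw, fX, fY, fE]
  refine ⟨?_, ?_, ?_⟩ <;> ring

end Pool.Agent.W596.ST
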